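import Mathlib

open Filter Topology Pointwise

namespace Pool.Agent.Lib.Pdcd72d

universe u

section Mono

variable (k : Type u) [Field k] (d : ℕ)

/-- function field of projective `d`-space (or of `(P^1)^d`) -/
abbrev RF := FractionRing (MvPolynomial (Fin d) k)

variable {d}

/-- the monomial with exponent `s` -/
noncomputable def mon (s : Fin d →₀ ℕ) : RF k d :=
  algebraMap (MvPolynomial (Fin d) k) (RF k d) (MvPolynomial.monomial s 1)

lemma mon_add (s t : Fin d →₀ ℕ) : mon k (s + t) = mon k s * mon k t := by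
  simp [mon, ← map_mul, MvPolynomial.monomial_mul]

lemma mon_zero : mon k (0 : Fin d →₀ ℕ) = 1 := by
  simp [mon]

lemma mon_linearIndependent : LinearIndependent k (mon k : (Fin d →₀ ℕ) → RF k d) := by
  have h1 : LinearIndependent k (fun s : Fin d →₀ ℕ => MvPolynomial.monomial s (1 : k)) := by
    have := (MvPolynomial.basisMonomials (Fin d) k).linearIndependent
    simpa [MvPolynomial.coe_basisMonomials] using this
  have h2 := h1.map' ((IsScalarTower.toAlgHom k (MvPolynomial (Fin d) k) (RF k d)).toLinearMap)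
    (by
      rw [LinearMap.ker_eq_bot]
      exact IsFractionRing.injective (MvPolynomial (Fin d) k) (RF k d))
  exact h2

lemma mon_injective : Function.Injective (mon k : (Fin d →₀ ℕ) → RF k d) :=
  (mon_linearIndependent k).injective

/-- span of the monomials with exponents in `S` -/
noncomputable def msp (S : Set (Fin d →₀ ℕ)) : Submodule k (RF k d) :=
  Submodule.span k (mon k '' S)

lemma msp_mul (S T : Set (Fin d →₀ ℕ)) : msp k S * msp k T = msp k (S + T) := by
  unfold msp
  rw [Submodule.span_mul_span]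
  congr 1
  ext x
  simp only [Set.mem_mul, Set.mem_image, Set.mem_add]
  constructor
  · rintro ⟨_, ⟨s, hs, rfl⟩, _, ⟨t, ht, rfl⟩, rfl⟩
    exact ⟨s + t, ⟨s, hs, t, ht, rfl⟩, mon_add k s t⟩
  · rintro ⟨_, ⟨s, hs, t, ht, rfl⟩, rfl⟩
    exact ⟨_, ⟨s, hs, rfl⟩, _, ⟨t, ht, rfl⟩, (mon_add k s t).symm⟩

lemma finrank_msp (S : Set (Fin d →₀ ℕ)) (hS : S.Finite) :
    Module.finrank k (msp k S) = S.ncard := by
  have := hS.fintype
  have h := (mon_linearIndependent k (d := d)).comp (fun s : S => (s : Fin d →₀ ℕ))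
    Subtype.val_injective
  have h2 := finrank_span_eq_card h
  have h3 : Set.range (mon k ∘ fun s : S => (s : Fin d →₀ ℕ)) = mon k '' S := by
    rw [Set.range_comp, Subtype.range_coe]
  rw [h3] at h2
  unfold msp
  rw [h2, Set.ncard_eq_toFinset_card', Set.toFinset_card]

/-- The monomial endomorphism attached to an injective additive map of exponents. -/
noncomputable def monHomP (θ : (Fin d →₀ ℕ) →+ (Fin d →₀ ℕ)) :
    MvPolynomial (Fin d) k →ₐ[k] MvPolynomial (Fin d) k :=
  AddMonoidAlgebra.mapDomainAlgHom k k θ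

lemma monHomP_monomial (θ : (Fin d →₀ ℕ) →+ (Fin d →₀ ℕ)) (s : Fin d →₀ ℕ) (c : k) :
    monHomP k θ (MvPolynomial.monomial s c) = MvPolynomial.monomial (θ s) c := by
  exact AddMonoidAlgebra.mapDomain_single

lemma monHomP_injective (θ : (Fin d →₀ ℕ) →+ (Fin d →₀ ℕ)) (hθ : Function.Injective θ) :
    Function.Injective (monHomP k θ) :=
  AddMonoidAlgebra.mapDomain_injective hθ

lemma monHomP_comp_injective (θ : (Fin d →₀ ℕ) →+ (Fin d →₀ ℕ)) (hθ : Function.Injective θ) :
    Function.Injective
      ((IsScalarTower.toAlgHom k (MvPolynomial (Fin d) k) (RF k d)).comp (monHomP k θ)) := by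
  intro x y h
  apply monHomP_injective k θ hθ
  apply IsFractionRing.injective (MvPolynomial (Fin d) k) (RF k d)
  simpa using h

/-- The monomial self-map (as an endomorphism of the function field). -/
noncomputable def monHom (θ : (Fin d →₀ ℕ) →+ (Fin d →₀ ℕ)) (hθ : Function.Injective θ) :
    RF k d →ₐ[k] RF k d :=
  IsFractionRing.liftAlgHom (A := MvPolynomial (Fin d) k) (monHomP_comp_injective k θ hθ)

lemma monHom_mon (θ : (Fin d →₀ ℕ) →+ (Fin d →₀ ℕ)) (hθ : Function.Injective θ)
    (s : Fin d →₀ ℕ) : monHom k θ hθ (mon k s) = mon k (θ s) := by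
  have h : monHom k θ hθ (mon k s) =
      ((IsScalarTower.toAlgHom k (MvPolynomial (Fin d) k) (RF k d)).comp (monHomP k θ))
        (MvPolynomial.monomial s 1) :=
    IsFractionRing.lift_algebraMap (monHomP_comp_injective k θ hθ) (MvPolynomial.monomial s 1)
  rw [h, AlgHom.comp_apply, monHomP_monomial]
  rfl

lemma monHom_pow_mon (θ : (Fin d →₀ ℕ) →+ (Fin d →₀ ℕ)) (hθ : Function.Injective θ)
    (n : ℕ) (s : Fin d →₀ ℕ) : ((monHom k θ hθ) ^ n) (mon k s) = mon k (θ^[n] s) := by
  induction n generalizing s with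
  | zero => simp
  | succ n ih =>
    rw [pow_succ, AlgHom.mul_apply, monHom_mon, ih, Function.iterate_succ_apply]

lemma map_msp (θ : (Fin d →₀ ℕ) →+ (Fin d →₀ ℕ)) (hθ : Function.Injective θ)
    (n : ℕ) (S : Set (Fin d →₀ ℕ)) :
    (msp k S).map ((monHom k θ hθ) ^ n).toLinearMap = msp k (θ^[n] '' S) := by
  unfold msp
  rw [Submodule.map_span, Set.image_image, Set.image_image]
  congr 1
  apply Set.image_congr
  intro s _
  exact monHom_pow_mon k θ hθ n s

/-- the box of exponents bounded by `a` -/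
def box (d a : ℕ) : Set (Fin d →₀ ℕ) := {s | ∀ i, s i ≤ a}

lemma box_finite (d a : ℕ) : (box d a).Finite := by
  refine Set.Finite.subset (Set.finite_Iic (Finsupp.equivFunOnFinite.symm fun _ : Fin d => a)) ?_
  intro s hs i
  simpa using hs i

lemma box_zero (d : ℕ) : box d 0 = {0} := by
  ext s
  simp only [box, Set.mem_ofPred_eq, Set.mem_singleton_iff, nonpos_iff_eq_zero]
  constructor
  · intro h; ext i; simp [h i]
  · rintro rfl i; simp

lemma box_add (d a : ℕ) : box d a + box d 1 = box d (a + 1) := by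
  ext s
  simp only [Set.mem_add, box, Set.mem_ofPred_eq]
  constructor
  · rintro ⟨x, hx, y, hy, rfl⟩ i
    simpa using add_le_add (hx i) (hy i)
  · intro h
    refine ⟨Finsupp.equivFunOnFinite.symm fun i => min (s i) a, fun i => by simp,
      Finsupp.equivFunOnFinite.symm fun i => s i - min (s i) a, fun i => ?_, ?_⟩
    · have := h i
      simp only [Finsupp.equivFunOnFinite_symm_apply_apply]
      omega
    · ext i
      have := h i
      simp only [Finsupp.coe_add, Pi.add_apply, Finsupp.equivFunOnFinite_symm_apply_apply]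
      omega

lemma msp_box_pow (a : ℕ) : msp k (box d 1) ^ a = msp k (box d a) := by
  induction a with
  | zero =>
    rw [pow_zero, box_zero, msp, Set.image_singleton, mon_zero, Submodule.one_eq_span]
  | succ a ih => rw [pow_succ, ih, msp_mul, box_add]

lemma msp_image_pow (θ : (Fin d →₀ ℕ) →+ (Fin d →₀ ℕ)) (hθ : Function.Injective θ) (n a : ℕ) :
    ((msp k (box d 1)).map ((monHom k θ hθ) ^ n).toLinearMap) ^ a = msp k (θ^[n] '' box d a) := by
  rw [← Submodule.map_pow, msp_box_pow, map_msp]

theorem finrank_forms (θ : (Fin d →₀ ℕ) →+ (Fin d →₀ ℕ)) (hθ : Function.Injective θ)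
    (n a b : ℕ) :
    Module.finrank k ↥(msp k (box d 1) ^ a *
      ((msp k (box d 1)).map ((monHom k θ hθ) ^ n).toLinearMap) ^ b) =
    (box d a + θ^[n] '' box d b).ncard := by
  rw [msp_box_pow, msp_image_pow, msp_mul, finrank_msp]
  exact (box_finite d a).add ((box_finite d b).image _)

end Mono

end Pool.Agent.Lib.Pdcd72d
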