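import Mathlib

open Filter Topology Pointwise MeasureTheory

namespace Pool.Agent.Lib.Pdcd72d

/-- Adding a horizontal segment to a compact convex planar set. -/
lemma volume_add_horizontal (P : Set (ℝ × ℝ)) (hc : IsCompact P) (hconv : Convex ℝ P) (q : ℝ)
    (hq : 0 ≤ q) :
    volume (P + (Set.Icc (0:ℝ) q ×ˢ {(0:ℝ)})) =
      volume P + ENNReal.ofReal q * volume (Prod.snd '' P) := by
  have hE : IsCompact (P + (Set.Icc (0:ℝ) q ×ˢ {(0:ℝ)})) :=
    hc.add (isCompact_Icc.prod isCompact_singleton)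
  have hs : IsCompact (Prod.snd '' P) := hc.image continuous_snd
  rw [Measure.volume_eq_prod, Measure.prod_apply_symm hE.measurableSet,
    Measure.prod_apply_symm hc.measurableSet]
  have key : ∀ y : ℝ, volume ((fun x => (x, y)) ⁻¹' (P + (Set.Icc (0:ℝ) q ×ˢ {(0:ℝ)}))) =
      volume ((fun x : ℝ => (x, y)) ⁻¹' P) +
        Set.indicator (Prod.snd '' P) (fun _ => ENNReal.ofReal q) y := by
    intro y
    by_cases hy : y ∈ Prod.snd '' P
    · rw [Set.indicator_of_mem hy]
      set Q : Set ℝ := (fun x : ℝ => (x, y)) ⁻¹' P with hQ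
      have hQc : IsCompact Q := by
        have : Q = Prod.fst '' (P ∩ Prod.snd ⁻¹' {y}) := by
          ext x
          simp only [hQ, Set.mem_preimage, Set.mem_image, Set.mem_inter_iff,
            Set.mem_singleton_iff]
          constructor
          · intro h; exact ⟨(x, y), ⟨h, rfl⟩, rfl⟩
          · rintro ⟨⟨a, b⟩, ⟨h1, h2⟩, h3⟩
            simp only at h2 h3
            subst h2 h3
            exact h1
        rw [this]
        exact (hc.inter_right (isClosed_singleton.preimage continuous_snd)).image continuous_fst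
      have hQconv : Convex ℝ Q := by
        intro x hx x' hx' s t hs ht hst
        have := hconv hx hx' hs ht hst
        simp only [hQ, Set.mem_preimage]
        convert this using 1
        ext
        · simp
        · simp only [Prod.smul_mk, Prod.mk_add_mk, smul_eq_mul]
          rw [← add_mul, hst, one_mul]
      have hQne : Q.Nonempty := by
        obtain ⟨⟨a, b⟩, h1, h2⟩ := hy
        simp only at h2
        subst h2
        exact ⟨a, h1⟩
      have hQeq : Q = Set.Icc (sInf Q) (sSup Q) :=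
        eq_Icc_of_connected_compact ⟨hQne, hQconv.isPreconnected⟩ hQc
      have hle : sInf Q ≤ sSup Q := by
        have : (Set.Icc (sInf Q) (sSup Q)).Nonempty := hQeq ▸ hQne
        exact Set.nonempty_Icc.mp this
      have hE2 : (fun x => (x, y)) ⁻¹' (P + (Set.Icc (0:ℝ) q ×ˢ {(0:ℝ)})) =
          Set.Icc (sInf Q) (sSup Q + q) := by
        ext x
        simp only [Set.mem_preimage, Set.mem_add, Set.mem_prod, Set.mem_singleton_iff]
        constructor
        · rintro ⟨⟨a, b⟩, hab, ⟨c, c'⟩, ⟨hc1, hc2⟩, h⟩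
          simp only [Prod.mk_add_mk, Prod.mk.injEq] at h hc1 hc2
          obtain ⟨h1, h2⟩ := h
          subst hc2
          have hb : b = y := by linarith
          subst hb
          have haQ : a ∈ Q := hab
          rw [hQeq] at haQ
          constructor
          · linarith [haQ.1, hc1.1]
          · linarith [haQ.2, hc1.2]
        · rintro ⟨h1, h2⟩
          by_cases hx : x ≤ sSup Q
          · refine ⟨(x, y), ?_, (0, 0), ⟨⟨le_refl _, hq⟩, rfl⟩, by simp⟩
            have : x ∈ Q := by rw [hQeq]; exact ⟨h1, hx⟩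
            exact this
          · push Not at hx
            refine ⟨(sSup Q, y), ?_, (x - sSup Q, 0), ⟨⟨by simp only; linarith,
              by simp only; linarith⟩, rfl⟩, by simp⟩
            have : sSup Q ∈ Q := hQc.sSup_mem hQne
            exact this
      rw [hE2]
      nth_rw 3 [hQeq]
      rw [Real.volume_Icc, Real.volume_Icc, ← ENNReal.ofReal_add (by linarith) hq]
      congr 1
      ring
    · rw [Set.indicator_of_notMem hy]
      have h1 : (fun x => (x, y)) ⁻¹' (P + (Set.Icc (0:ℝ) q ×ˢ {(0:ℝ)})) = ∅ := by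
        ext x
        simp only [Set.mem_preimage, Set.mem_add, Set.mem_prod, Set.mem_singleton_iff,
          Set.mem_empty_iff_false, iff_false]
        rintro ⟨⟨a, b⟩, hab, ⟨c, c'⟩, ⟨hc1, hc2⟩, h⟩
        simp only [Prod.mk_add_mk, Prod.mk.injEq] at h hc1 hc2
        apply hy
        refine ⟨(a, b), hab, ?_⟩
        simp only
        linarith [h.2]
      have h2 : (fun x : ℝ => (x, y)) ⁻¹' P = ∅ := by
        ext x
        simp only [Set.mem_preimage, Set.mem_empty_iff_false, iff_false]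
        intro h
        exact hy ⟨(x, y), h, rfl⟩
      rw [h1, h2]
      simp
  rw [lintegral_congr key, lintegral_add_left, lintegral_indicator_const hs.measurableSet]
  exact measurable_measure_prodMk_right hc.measurableSet

/-- Adding a vertical segment to a compact convex planar set. -/
lemma volume_add_vertical (P : Set (ℝ × ℝ)) (hc : IsCompact P) (hconv : Convex ℝ P) (q : ℝ)
    (hq : 0 ≤ q) :
    volume (P + ({(0:ℝ)} ×ˢ Set.Icc (0:ℝ) q)) =
      volume P + ENNReal.ofReal q * volume (Prod.fst '' P) := by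
  have hsw : ∀ A : Set (ℝ × ℝ), volume (Prod.swap '' A) = volume A := by
    intro A
    have := (Measure.measurePreserving_swap (μ := (volume : Measure ℝ))
      (ν := (volume : Measure ℝ)))
    rw [Set.image_swap_eq_preimage_swap]
    exact this.measure_preimage_equiv (f := MeasurableEquiv.prodComm) A
  have h := volume_add_horizontal (Prod.swap '' P) (hc.image continuous_swap)
    (by
      have : Convex ℝ ((LinearEquiv.prodComm ℝ ℝ ℝ).toLinearMap '' P) := hconv.linear_image _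
      exact this) q hq
  rw [hsw] at h
  have h1 : Prod.swap '' P + (Set.Icc (0:ℝ) q ×ˢ {(0:ℝ)}) =
      Prod.swap '' (P + ({(0:ℝ)} ×ˢ Set.Icc (0:ℝ) q)) := by
    ext ⟨x, y⟩
    simp only [Set.mem_add, Set.mem_image, Set.mem_prod, Set.mem_singleton_iff, Prod.exists,
      Prod.swap_prod_mk, Prod.mk.injEq, Prod.mk_add_mk]
    constructor
    · rintro ⟨a, b, ⟨a', b', h1, rfl, rfl⟩, c, c', ⟨h2, rfl⟩, rfl, rfl⟩
      exact ⟨_, _, ⟨a', b', h1, 0, c, ⟨rfl, h2⟩, rfl, rfl⟩, rfl, rfl⟩
    · rintro ⟨a, b, ⟨a', b', h1, c, c', ⟨rfl, h2⟩, rfl, rfl⟩, rfl, rfl⟩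
      exact ⟨b', a', ⟨a', b', h1, rfl, rfl⟩, c', 0, ⟨h2, rfl⟩, rfl, rfl⟩
  have h2 : Prod.snd '' (Prod.swap '' P) = Prod.fst '' P := by
    rw [Set.image_image]
    simp
  rw [h1, hsw, h2] at h
  exact h

/-- The parallelogram spanned by the columns of `((a,b),(c,e))`, scaled by `n`. -/
noncomputable def linM (a b c e : ℝ) : (ℝ × ℝ) →ₗ[ℝ] (ℝ × ℝ) :=
  Matrix.toLin (Module.Basis.finTwoProd ℝ) (Module.Basis.finTwoProd ℝ) !![a, b; c, e]

lemma linM_apply (a b c e : ℝ) (x : ℝ × ℝ) :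
    linM a b c e x = (a * x.1 + b * x.2, c * x.1 + e * x.2) := by
  simp [linM, Matrix.toLin_finTwoProd_apply]

lemma linM_det (a b c e : ℝ) : LinearMap.det (linM a b c e) = a * e - b * c := by
  rw [linM, LinearMap.det_toLin, Matrix.det_fin_two_of]

noncomputable def par (a b c e n : ℝ) : Set (ℝ × ℝ) :=
  (linM a b c e) '' (Set.Icc 0 n ×ˢ Set.Icc 0 n)

lemma par_compact (a b c e n : ℝ) : IsCompact (par a b c e n) :=
  (isCompact_Icc.prod isCompact_Icc).image (linM a b c e).continuous_of_finiteDimensional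

lemma par_convex (a b c e n : ℝ) : Convex ℝ (par a b c e n) :=
  ((convex_Icc 0 n).prod (convex_Icc 0 n)).linear_image _

lemma volume_par (a b c e n : ℝ) (hn : 0 ≤ n) :
    volume (par a b c e n) = ENNReal.ofReal (n ^ 2 * |a * e - b * c|) := by
  rw [par, Measure.addHaar_image_linearMap, linM_det, Measure.volume_eq_prod,
    Measure.prod_prod, Real.volume_Icc, sub_zero, ← ENNReal.ofReal_mul hn,
    ← ENNReal.ofReal_mul (abs_nonneg _)]
  congr 1
  ring

lemma snd_par (a b c e n : ℝ) (hc : 0 ≤ c) (he : 0 ≤ e) (hn : 0 ≤ n) :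
    Prod.snd '' par a b c e n = Set.Icc 0 (n * (c + e)) := by
  ext y
  simp only [par, Set.mem_image, Set.mem_prod, Set.mem_Icc, Prod.exists, linM_apply,
    Prod.mk.injEq]
  constructor
  · rintro ⟨x, _, ⟨u, v, ⟨⟨h1, h2⟩, h3, h4⟩, rfl, rfl⟩, rfl⟩
    constructor
    · positivity
    · nlinarith
  · rintro ⟨h1, h2⟩
    rcases eq_or_lt_of_le (add_nonneg hc he) with h0 | h0
    · rw [← h0, mul_zero] at h2
      have hy : y = 0 := le_antisymm h2 h1
      subst hy
      exact ⟨_, _, ⟨0, 0, ⟨⟨le_refl _, hn⟩, le_refl _, hn⟩, rfl, rfl⟩, by simp⟩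
    · have h3 : 0 ≤ y / (c + e) := by positivity
      have h4 : y / (c + e) ≤ n := by
        rw [div_le_iff₀ h0]; exact h2
      refine ⟨_, _, ⟨y / (c + e), y / (c + e), ⟨⟨h3, h4⟩, h3, h4⟩, rfl, rfl⟩, ?_⟩
      field_simp

lemma fst_par (a b c e n : ℝ) (ha : 0 ≤ a) (hb : 0 ≤ b) (hn : 0 ≤ n) :
    Prod.fst '' par a b c e n = Set.Icc 0 (n * (a + b)) := by
  ext y
  simp only [par, Set.mem_image, Set.mem_prod, Set.mem_Icc, Prod.exists, linM_apply,
    Prod.mk.injEq]
  constructor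
  · rintro ⟨x, _, ⟨u, v, ⟨⟨h1, h2⟩, h3, h4⟩, rfl, rfl⟩, rfl⟩
    constructor
    · positivity
    · nlinarith
  · rintro ⟨h1, h2⟩
    rcases eq_or_lt_of_le (add_nonneg ha hb) with h0 | h0
    · rw [← h0, mul_zero] at h2
      have hy : y = 0 := le_antisymm h2 h1
      subst hy
      exact ⟨_, _, ⟨0, 0, ⟨⟨le_refl _, hn⟩, le_refl _, hn⟩, rfl, rfl⟩, by simp⟩
    · have h3 : 0 ≤ y / (a + b) := by positivity
      have h4 : y / (a + b) ≤ n := by
        rw [div_le_iff₀ h0]; exact h2
      refine ⟨_, _, ⟨y / (a + b), y / (a + b), ⟨⟨h3, h4⟩, h3, h4⟩, rfl, rfl⟩, ?_⟩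
      field_simp

/-- The Minkowski sum of the parallelogram and the square of side `q`. -/
noncomputable def zono (a b c e n q : ℝ) : Set (ℝ × ℝ) :=
  par a b c e n + (Set.Icc 0 q ×ˢ Set.Icc 0 q)

lemma volume_zono (a b c e n q : ℝ) (ha : 0 ≤ a) (hb : 0 ≤ b) (hc : 0 ≤ c) (he : 0 ≤ e)
    (hn : 0 ≤ n) (hq : 0 ≤ q) :
    volume (zono a b c e n q) =
      ENNReal.ofReal (n ^ 2 * |a * e - b * c| + q * (n * (a + b + c + e)) + q ^ 2) := by
  have h1 : zono a b c e n q =
      (par a b c e n + (Set.Icc (0:ℝ) q ×ˢ {(0:ℝ)})) + ({(0:ℝ)} ×ˢ Set.Icc (0:ℝ) q) := by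
    rw [zono, add_assoc]
    congr 1
    ext ⟨x, y⟩
    simp only [Set.mem_add, Set.mem_prod, Set.mem_singleton_iff, Prod.exists, Prod.mk_add_mk,
      Prod.mk.injEq]
    constructor
    · rintro ⟨h1, h2⟩
      exact ⟨x, 0, ⟨h1, rfl⟩, 0, y, ⟨rfl, h2⟩, by simp, by simp⟩
    · rintro ⟨a, b, ⟨h1, rfl⟩, c, d, ⟨rfl, h2⟩, rfl, rfl⟩
      simpa using ⟨h1, h2⟩
  have hcmp : IsCompact (par a b c e n + (Set.Icc (0:ℝ) q ×ˢ {(0:ℝ)})) :=
    (par_compact a b c e n).add (isCompact_Icc.prod isCompact_singleton)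
  have hcvx : Convex ℝ (par a b c e n + (Set.Icc (0:ℝ) q ×ˢ {(0:ℝ)})) :=
    (par_convex a b c e n).add ((convex_Icc 0 q).prod (convex_singleton 0))
  have hfst : Prod.fst '' (par a b c e n + (Set.Icc (0:ℝ) q ×ˢ {(0:ℝ)})) =
      Set.Icc 0 (n * (a + b) + q) := by
    have : Prod.fst '' (par a b c e n + (Set.Icc (0:ℝ) q ×ˢ {(0:ℝ)})) =
        Prod.fst '' par a b c e n + Set.Icc 0 q := by
      ext x
      simp only [Set.mem_add, Set.mem_image, Set.mem_prod, Set.mem_singleton_iff, Prod.exists]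
      constructor
      · rintro ⟨_, _, ⟨u, v, h, u', v', ⟨h1, rfl⟩, h3⟩, rfl⟩
        simp only [Prod.mk_add_mk, Prod.mk.injEq] at h3
        exact ⟨u, ⟨_, _, h, rfl⟩, u', h1, h3.1⟩
      · rintro ⟨_, ⟨u, v, h, rfl⟩, u', h1, rfl⟩
        exact ⟨_, _, ⟨u, v, h, u', 0, ⟨h1, rfl⟩, rfl⟩, rfl⟩
    rw [this, fst_par a b c e n ha hb hn]
    ext x
    simp only [Set.mem_add, Set.mem_Icc]
    constructor
    · rintro ⟨u, ⟨h1, h2⟩, v, ⟨h3, h4⟩, rfl⟩
      constructor <;> linarith
    · rintro ⟨h1, h2⟩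
      by_cases hx : x ≤ n * (a + b)
      · exact ⟨x, ⟨h1, hx⟩, 0, ⟨le_refl _, hq⟩, by simp⟩
      · push Not at hx
        exact ⟨n * (a + b), ⟨by positivity, le_refl _⟩, x - n * (a + b),
          ⟨by linarith, by linarith⟩, by ring⟩
  rw [h1, volume_add_vertical _ hcmp hcvx q hq, hfst, volume_add_horizontal _
    (par_compact a b c e n) (par_convex a b c e n) q hq, snd_par a b c e n hc he hn,
    volume_par a b c e n hn, Real.volume_Icc, Real.volume_Icc, sub_zero, sub_zero,
    ← ENNReal.ofReal_mul hq, ← ENNReal.ofReal_mul hq, ← ENNReal.ofReal_add (by positivity)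
      (by positivity), ← ENNReal.ofReal_add (by positivity) (by positivity)]
  congr 1
  ring

end Pool.Agent.Lib.Pdcd72d
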