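import Mathlib
import Pool.Agent.Lib.Pdcd72d.Geom

open Filter Topology Pointwise MeasureTheory

namespace Pool.Agent.Lib.Pdcd72d

/-- The planar sumset `[0,m]^2 + M [0,n]^2` of lattice points. -/
def S2 (a b c e m n : ℕ) : Finset (ℕ × ℕ) :=
  ((Finset.range (m + 1) ×ˢ Finset.range (m + 1)) ×ˢ
    (Finset.range (n + 1) ×ˢ Finset.range (n + 1))).image
    (fun p => (p.1.1 + (a * p.2.1 + b * p.2.2), p.1.2 + (c * p.2.1 + e * p.2.2)))

lemma mem_S2 (a b c e m n : ℕ) (z : ℕ × ℕ) : z ∈ S2 a b c e m n ↔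
    ∃ u1 u2 v1 v2 : ℕ, u1 ≤ m ∧ u2 ≤ m ∧ v1 ≤ n ∧ v2 ≤ n ∧
      z = (u1 + (a * v1 + b * v2), u2 + (c * v1 + e * v2)) := by
  simp only [S2, Finset.mem_image, Finset.mem_product, Finset.mem_range, Prod.exists]
  constructor
  · rintro ⟨u1, u2, v1, v2, ⟨⟨h1, h2⟩, h3, h4⟩, rfl⟩
    exact ⟨u1, u2, v1, v2, by omega, by omega, by omega, by omega, rfl⟩
  · rintro ⟨u1, u2, v1, v2, h1, h2, h3, h4, rfl⟩
    exact ⟨u1, u2, v1, v2, ⟨⟨by omega, by omega⟩, by omega, by omega⟩, rfl⟩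

/-- unit square at the lattice point `z` -/
def usq (z : ℕ × ℕ) : Set (ℝ × ℝ) :=
  Set.Ico (z.1 : ℝ) (z.1 + 1) ×ˢ Set.Ico (z.2 : ℝ) (z.2 + 1)

lemma usq_meas (z : ℕ × ℕ) : MeasurableSet (usq z) :=
  measurableSet_Ico.prod measurableSet_Ico

lemma volume_usq (z : ℕ × ℕ) : volume (usq z) = 1 := by
  rw [usq, Measure.volume_eq_prod, Measure.prod_prod, Real.volume_Ico, Real.volume_Ico]
  simp

lemma mem_usq (z : ℕ × ℕ) (x : ℝ × ℝ) : x ∈ usq z ↔
    0 ≤ x.1 ∧ 0 ≤ x.2 ∧ z = (⌊x.1⌋₊, ⌊x.2⌋₊) := by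
  simp only [usq, Set.mem_prod, Set.mem_Ico]
  constructor
  · rintro ⟨⟨h1, h2⟩, h3, h4⟩
    have hx1 : 0 ≤ x.1 := le_trans (Nat.cast_nonneg _) h1
    have hx2 : 0 ≤ x.2 := le_trans (Nat.cast_nonneg _) h3
    refine ⟨hx1, hx2, ?_⟩
    ext
    · exact ((Nat.floor_eq_iff hx1).mpr ⟨h1, h2⟩).symm
    · exact ((Nat.floor_eq_iff hx2).mpr ⟨h3, h4⟩).symm
  · rintro ⟨h1, h2, rfl⟩
    exact ⟨⟨Nat.floor_le h1, Nat.lt_floor_add_one _⟩, Nat.floor_le h2, Nat.lt_floor_add_one _⟩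

lemma usq_disj (S : Finset (ℕ × ℕ)) : (S : Set (ℕ × ℕ)).PairwiseDisjoint usq := by
  intro z _ z' _ hne
  rw [Function.onFun, Set.disjoint_left]
  intro x hx hx'
  rw [mem_usq] at hx hx'
  exact hne (hx.2.2.trans hx'.2.2.symm)

lemma volume_union (S : Finset (ℕ × ℕ)) : volume (⋃ z ∈ S, usq z) = S.card := by
  rw [measure_biUnion_finset (usq_disj S) (fun z _ => usq_meas z)]
  simp [volume_usq]

lemma card_S2_le (a b c e m n : ℕ) :
    ((S2 a b c e m n).card : ℝ) ≤ (n : ℝ) ^ 2 * |(a : ℝ) * e - b * c| +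
      ((m : ℝ) + 1) * (n * (a + b + c + e)) + ((m : ℝ) + 1) ^ 2 := by
  have hsub : (⋃ z ∈ S2 a b c e m n, usq z) ⊆ zono a b c e n (m + 1) := by
    intro x hx
    simp only [Set.mem_iUnion, exists_prop] at hx
    obtain ⟨z, hz, hx⟩ := hx
    rw [mem_S2] at hz
    obtain ⟨u1, u2, v1, v2, h1, h2, h3, h4, rfl⟩ := hz
    simp only [usq, Set.mem_prod, Set.mem_Ico] at hx
    obtain ⟨⟨hx1, hx2⟩, hx3, hx4⟩ := hx
    push_cast at hx1 hx2 hx3 hx4
    have h1' : (u1 : ℝ) ≤ m := by exact_mod_cast h1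
    have h2' : (u2 : ℝ) ≤ m := by exact_mod_cast h2
    have h3' : (v1 : ℝ) ≤ n := by exact_mod_cast h3
    have h4' : (v2 : ℝ) ≤ n := by exact_mod_cast h4
    have p1 : (0:ℝ) ≤ u1 := Nat.cast_nonneg _
    have p2 : (0:ℝ) ≤ u2 := Nat.cast_nonneg _
    have p3 : (0:ℝ) ≤ v1 := Nat.cast_nonneg _
    have p4 : (0:ℝ) ≤ v2 := Nat.cast_nonneg _
    rw [zono, Set.mem_add]
    refine ⟨(a * v1 + b * v2, c * v1 + e * v2), ?_,
      (x.1 - (a * v1 + b * v2), x.2 - (c * v1 + e * v2)), ?_, ?_⟩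
    · refine ⟨((v1 : ℝ), (v2 : ℝ)), ⟨⟨p3, h3'⟩, p4, h4'⟩, ?_⟩
      rw [linM_apply]
    · refine ⟨⟨?_, ?_⟩, ?_, ?_⟩ <;> simp only <;> linarith
    · ext <;> simp
  have h := measure_mono (μ := volume) hsub
  rw [volume_union, volume_zono _ _ _ _ _ _ (Nat.cast_nonneg _) (Nat.cast_nonneg _)
    (Nat.cast_nonneg _) (Nat.cast_nonneg _) (Nat.cast_nonneg _) (by positivity)] at h
  rw [← ENNReal.ofReal_natCast, ENNReal.ofReal_le_ofReal_iff (by positivity)] at h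
  exact h

lemma le_card_S2 (a b c e m n c0 : ℕ) (h1 : a + b ≤ c0) (h2 : c + e ≤ c0) (hm : c0 ≤ m) :
    (n : ℝ) ^ 2 * |(a : ℝ) * e - b * c| +
      ((m : ℝ) - c0) * (n * (a + b + c + e)) + ((m : ℝ) - c0) ^ 2 ≤
      ((S2 a b c e m n).card : ℝ) := by
  have hmc : (0:ℝ) ≤ (m : ℝ) - c0 := by
    have : (c0 : ℝ) ≤ m := by exact_mod_cast hm
    linarith
  have h1' : (a : ℝ) + b ≤ c0 := by exact_mod_cast h1
  have h2' : (c : ℝ) + e ≤ c0 := by exact_mod_cast h2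
  have pa : (0:ℝ) ≤ a := Nat.cast_nonneg _
  have pb : (0:ℝ) ≤ b := Nat.cast_nonneg _
  have pc : (0:ℝ) ≤ c := Nat.cast_nonneg _
  have pe : (0:ℝ) ≤ e := Nat.cast_nonneg _
  have hsub : zono a b c e n ((m : ℝ) - c0) ⊆ (⋃ z ∈ S2 a b c e m n, usq z) := by
    intro x hx
    rw [zono, Set.mem_add] at hx
    obtain ⟨_, ⟨⟨v, w⟩, ⟨⟨hv1, hv2⟩, hw1, hw2⟩, rfl⟩, ⟨r, s⟩, ⟨⟨hr1, hr2⟩, hs1, hs2⟩, rfl⟩ := hx
    simp only at hv1 hv2 hw1 hw2 hr1 hr2 hs1 hs2
    rw [linM_apply]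
    simp only [Set.mem_iUnion, exists_prop, mem_usq, Prod.mk_add_mk]
    set V := ⌊v⌋₊ with hV
    set W := ⌊w⌋₊ with hW
    have hV1 : (V : ℝ) ≤ v := Nat.floor_le hv1
    have hV2 : v < V + 1 := Nat.lt_floor_add_one v
    have hW1 : (W : ℝ) ≤ w := Nat.floor_le hw1
    have hW2 : w < W + 1 := Nat.lt_floor_add_one w
    have hVn : V ≤ n := by
      have : (V : ℝ) ≤ n := hV1.trans hv2
      exact_mod_cast this
    have hWn : W ≤ n := by
      have : (W : ℝ) ≤ n := hW1.trans hw2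
      exact_mod_cast this
    have e1 : (a * V + b * W : ℝ) ≤ a * v + b * w + r := by nlinarith
    have e2 : (a * v + b * w + r : ℝ) ≤ a * V + b * W + m := by
      nlinarith
    have e3 : (c * V + e * W : ℝ) ≤ c * v + e * w + s := by nlinarith
    have e4 : (c * v + e * w + s : ℝ) ≤ c * V + e * W + m := by nlinarith
    have f1 : a * V + b * W ≤ ⌊(a * v + b * w + r : ℝ)⌋₊ := by
      apply Nat.le_floor
      push_cast
      exact e1
    have f2 : ⌊(a * v + b * w + r : ℝ)⌋₊ ≤ a * V + b * W + m := by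
      apply Nat.floor_le_of_le
      push_cast
      exact e2
    have f3 : c * V + e * W ≤ ⌊(c * v + e * w + s : ℝ)⌋₊ := by
      apply Nat.le_floor
      push_cast
      exact e3
    have f4 : ⌊(c * v + e * w + s : ℝ)⌋₊ ≤ c * V + e * W + m := by
      apply Nat.floor_le_of_le
      push_cast
      exact e4
    refine ⟨(⌊(a * v + b * w + r : ℝ)⌋₊, ⌊(c * v + e * w + s : ℝ)⌋₊), ?_, by positivity,
      by positivity, rfl⟩
    rw [mem_S2]
    refine ⟨⌊(a * v + b * w + r : ℝ)⌋₊ - (a * V + b * W),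
      ⌊(c * v + e * w + s : ℝ)⌋₊ - (c * V + e * W), V, W, by omega, by omega, hVn, hWn, ?_⟩
    ext <;> simp only <;> omega
  have h := measure_mono (μ := volume) hsub
  rw [volume_union, volume_zono _ _ _ _ _ _ pa pb pc pe (Nat.cast_nonneg _) hmc,
    ← ENNReal.ofReal_natCast, ENNReal.ofReal_le_ofReal_iff (Nat.cast_nonneg _)] at h
  exact h

/-- asymptotics of the planar count -/
lemma tendsto_S2 (a b c e : ℕ) (α β : ℕ) (hα : 1 ≤ α) :
    Tendsto (fun t : ℕ => ((S2 a b c e (t * α) (t * β)).card : ℝ) / (t : ℝ) ^ 2) atTop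
      (𝓝 ((β : ℝ) ^ 2 * |(a : ℝ) * e - b * c| + (α : ℝ) * (β * (a + b + c + e)) +
        (α : ℝ) ^ 2)) := by
  set c0 : ℕ := a + b + c + e with hc0
  have hinv : Tendsto (fun t : ℕ => (1 : ℝ) / (t : ℝ)) atTop (𝓝 0) :=
    tendsto_one_div_atTop_nhds_zero_nat
  have hlow : Tendsto (fun t : ℕ => (β : ℝ) ^ 2 * |(a : ℝ) * e - b * c| +
      ((α : ℝ) - c0 * (1 / (t : ℝ))) * (β * (a + b + c + e)) +
        ((α : ℝ) - c0 * (1 / (t : ℝ))) ^ 2) atTop
      (𝓝 ((β : ℝ) ^ 2 * |(a : ℝ) * e - b * c| + ((α : ℝ) - c0 * 0) * (β * (a + b + c + e)) +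
        ((α : ℝ) - c0 * 0) ^ 2)) := by
    have h1 : Tendsto (fun t : ℕ => (α : ℝ) - c0 * (1 / (t : ℝ))) atTop (𝓝 ((α : ℝ) - c0 * 0)) :=
      tendsto_const_nhds.sub (hinv.const_mul _)
    exact (tendsto_const_nhds.add (h1.mul_const _)).add (h1.pow 2)
  have hup : Tendsto (fun t : ℕ => (β : ℝ) ^ 2 * |(a : ℝ) * e - b * c| +
      ((α : ℝ) + 1 * (1 / (t : ℝ))) * (β * (a + b + c + e)) +
        ((α : ℝ) + 1 * (1 / (t : ℝ))) ^ 2) atTop
      (𝓝 ((β : ℝ) ^ 2 * |(a : ℝ) * e - b * c| + ((α : ℝ) + 1 * 0) * (β * (a + b + c + e)) +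
        ((α : ℝ) + 1 * 0) ^ 2)) := by
    have h1 : Tendsto (fun t : ℕ => (α : ℝ) + 1 * (1 / (t : ℝ))) atTop (𝓝 ((α : ℝ) + 1 * 0)) :=
      tendsto_const_nhds.add (hinv.const_mul _)
    exact (tendsto_const_nhds.add (h1.mul_const _)).add (h1.pow 2)
  simp only [mul_zero, sub_zero, add_zero] at hlow hup
  refine tendsto_of_tendsto_of_tendsto_of_le_of_le' hlow hup ?_ ?_
  · filter_upwards [eventually_ge_atTop (c0 + 1)] with t ht
    have ht0 : (0 : ℝ) < t := by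
      have : 0 < t := by omega
      exact_mod_cast this
    have hm : c0 ≤ t * α := le_trans (by omega) (Nat.le_mul_of_pos_right t hα)
    have h := le_card_S2 a b c e (t * α) (t * β) c0 (by omega) (by omega) hm
    rw [le_div_iff₀ (by positivity)]
    refine le_trans (le_of_eq ?_) h
    push_cast
    field_simp
  · filter_upwards [eventually_ge_atTop 1] with t ht
    have ht0 : (0 : ℝ) < t := by
      have : 0 < t := by omega
      exact_mod_cast this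
    have h := card_S2_le a b c e (t * α) (t * β)
    rw [div_le_iff₀ (by positivity)]
    refine le_trans h (le_of_eq ?_)
    push_cast
    field_simp

/-- one-dimensional sumsets -/
def S1 (c m n : ℕ) : Finset ℕ :=
  (Finset.range (m + 1) ×ˢ Finset.range (n + 1)).image (fun p => p.1 + c * p.2)

lemma mem_S1 (c m n : ℕ) (z : ℕ) : z ∈ S1 c m n ↔ ∃ u v : ℕ, u ≤ m ∧ v ≤ n ∧ z = u + c * v := by
  simp only [S1, Finset.mem_image, Finset.mem_product, Finset.mem_range, Prod.exists]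
  constructor
  · rintro ⟨u, v, ⟨h1, h2⟩, rfl⟩
    exact ⟨u, v, by omega, by omega, rfl⟩
  · rintro ⟨u, v, h1, h2, rfl⟩
    exact ⟨u, v, ⟨by omega, by omega⟩, rfl⟩

lemma card_S1 (c m n : ℕ) (hc : 1 ≤ c) (h : c ≤ m + 1) : (S1 c m n).card = m + c * n + 1 := by
  have : S1 c m n = Finset.range (m + c * n + 1) := by
    ext z
    rw [mem_S1, Finset.mem_range]
    constructor
    · rintro ⟨u, v, h1, h2, rfl⟩
      have : c * v ≤ c * n := Nat.mul_le_mul_left c h2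
      omega
    · intro hz
      by_cases hzn : z ≤ c * n
      · refine ⟨z % c, z / c, ?_, ?_, ?_⟩
        · have := Nat.mod_lt z (show c > 0 by omega)
          omega
        · apply Nat.div_le_of_le_mul
          exact hzn
        · exact (Nat.mod_add_div z c).symm
      · exact ⟨z - c * n, n, by omega, le_refl _, by omega⟩
  rw [this, Finset.card_range]

lemma tendsto_S1 (c : ℕ) (hc : 1 ≤ c) (α β : ℕ) (hα : 1 ≤ α) :
    Tendsto (fun t : ℕ => ((S1 c (t * α) (t * β)).card : ℝ) / (t : ℝ)) atTop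
      (𝓝 ((α : ℝ) + c * β)) := by
  have hinv : Tendsto (fun t : ℕ => (1 : ℝ) / (t : ℝ)) atTop (𝓝 0) :=
    tendsto_one_div_atTop_nhds_zero_nat
  have h : Tendsto (fun t : ℕ => (α : ℝ) + c * β + 1 / (t : ℝ)) atTop (𝓝 ((α : ℝ) + c * β + 0)) :=
    tendsto_const_nhds.add hinv
  rw [add_zero] at h
  refine h.congr' ?_
  filter_upwards [eventually_ge_atTop c] with t ht
  have ht0 : (0 : ℝ) < t := by
    have : 0 < t := by omega
    exact_mod_cast this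
  have : c ≤ t * α + 1 := le_trans ht ((Nat.le_mul_of_pos_right t hα).trans (Nat.le_succ _))
  rw [card_S1 c _ _ hc this]
  push_cast
  field_simp

end Pool.Agent.Lib.Pdcd72d
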