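import Mathlib
import Pool.Agent.Lib.Pdcd72d.Alg
import Pool.Agent.Lib.Pdcd72d.Count

open Filter Topology Pointwise MeasureTheory

namespace Pool.Agent.Lib.Pdcd72d

/-- the additive map on exponent vectors -/
noncomputable def theta (e p : ℕ) (m : Fin e → ℕ) : (Fin (e + 2) →₀ ℕ) →+ (Fin (e + 2) →₀ ℕ) where
  toFun s := Finsupp.equivFunOnFinite.symm
    (Fin.cons (p * s 0 + (p + 2) * s 1) (Fin.cons (s 0) (fun j => m j * s j.succ.succ)))
  map_zero' := by
    ext j
    refine Fin.cases ?_ (fun j => ?_) j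
    · simp
    · refine Fin.cases ?_ (fun j => ?_) j <;> simp
  map_add' s t := by
    ext j
    refine Fin.cases ?_ (fun j => ?_) j
    · simp; ring
    · refine Fin.cases ?_ (fun j => ?_) j
      · simp
      · simp; ring

lemma theta_zero (e p : ℕ) (m : Fin e → ℕ) (s : Fin (e + 2) →₀ ℕ) :
    theta e p m s 0 = p * s 0 + (p + 2) * s 1 := by
  simp [theta]

lemma theta_one (e p : ℕ) (m : Fin e → ℕ) (s : Fin (e + 2) →₀ ℕ) :
    theta e p m s 1 = s 0 := by
  have : (1 : Fin (e + 2)) = Fin.succ 0 := rfl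
  rw [this]
  simp [theta]

lemma theta_succ (e p : ℕ) (m : Fin e → ℕ) (s : Fin (e + 2) →₀ ℕ) (j : Fin e) :
    theta e p m s j.succ.succ = m j * s j.succ.succ := by
  simp [theta]

lemma theta_injective (e p : ℕ) (m : Fin e → ℕ) (hm : ∀ j, 1 ≤ m j) :
    Function.Injective (theta e p m) := by
  intro s t h
  have h0 : s 0 = t 0 := by rw [← theta_one e p m s, ← theta_one e p m t, h]
  have h1 : s 1 = t 1 := by
    have := theta_zero e p m s
    rw [h, theta_zero, h0] at this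
    have h2 : (p + 2) * t 1 = (p + 2) * s 1 := by omega
    exact (Nat.eq_of_mul_eq_mul_left (by omega) h2).symm
  ext j
  refine Fin.cases h0 (fun j => ?_) j
  refine Fin.cases h1 (fun j => ?_) j
  have := theta_succ e p m s j
  rw [h, theta_succ] at this
  exact (Nat.eq_of_mul_eq_mul_left (hm j) this).symm

/-- entries of the `n`-th power of `((p, p+2), (1, 0))` -/
def ent (p : ℕ) : ℕ → ℕ × ℕ × ℕ × ℕ
  | 0 => (1, 0, 0, 1)
  | n + 1 => (p * (ent p n).1 + (p + 2) * (ent p n).2.2.1,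
      p * (ent p n).2.1 + (p + 2) * (ent p n).2.2.2, (ent p n).1, (ent p n).2.1)

lemma iterate_theta (e p : ℕ) (m : Fin e → ℕ) (n : ℕ) (s : Fin (e + 2) →₀ ℕ) :
    ((theta e p m)^[n] s) 0 = (ent p n).1 * s 0 + (ent p n).2.1 * s 1 ∧
    ((theta e p m)^[n] s) 1 = (ent p n).2.2.1 * s 0 + (ent p n).2.2.2 * s 1 ∧
    ∀ j : Fin e, ((theta e p m)^[n] s) j.succ.succ = m j ^ n * s j.succ.succ := by
  induction n with
  | zero => simp [ent]
  | succ n ih =>
    obtain ⟨h0, h1, h2⟩ := ih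
    rw [Function.iterate_succ_apply', theta_zero, theta_one, h0, h1]
    refine ⟨?_, ?_, fun j => ?_⟩
    · simp only [ent]; ring
    · simp only [ent]
    · rw [theta_succ, h2, pow_succ]; ring

/-- assembling an exponent vector -/
noncomputable def asm (e : ℕ) (z : (ℕ × ℕ) × (Fin e → ℕ)) : Fin (e + 2) →₀ ℕ :=
  Finsupp.equivFunOnFinite.symm (Fin.cons z.1.1 (Fin.cons z.1.2 z.2))

lemma asm_zero (e : ℕ) (z : (ℕ × ℕ) × (Fin e → ℕ)) : asm e z 0 = z.1.1 := by simp [asm]

lemma asm_one (e : ℕ) (z : (ℕ × ℕ) × (Fin e → ℕ)) : asm e z 1 = z.1.2 := by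
  have : (1 : Fin (e + 2)) = Fin.succ 0 := rfl
  rw [this]
  simp [asm]

lemma asm_succ (e : ℕ) (z : (ℕ × ℕ) × (Fin e → ℕ)) (j : Fin e) :
    asm e z j.succ.succ = z.2 j := by simp [asm]

lemma ext_three {e : ℕ} {s t : Fin (e + 2) →₀ ℕ} (h0 : s 0 = t 0) (h1 : s 1 = t 1)
    (h2 : ∀ j : Fin e, s j.succ.succ = t j.succ.succ) : s = t := by
  ext j
  refine Fin.cases h0 (fun j => ?_) j
  exact Fin.cases h1 h2 j

lemma asm_injective (e : ℕ) : Function.Injective (asm e) := by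
  rintro ⟨⟨a, b⟩, w⟩ ⟨⟨a', b'⟩, w'⟩ h
  have h0 := congrArg (fun s => s 0) h
  have h1 := congrArg (fun s => s 1) h
  simp only [asm_zero, asm_one] at h0 h1
  have h2 : w = w' := by
    funext j
    have := congrArg (fun s => s j.succ.succ) h
    simpa only [asm_succ] using this
  subst h0 h1 h2
  rfl

lemma sumset_eq (e p : ℕ) (m : Fin e → ℕ) (n a b : ℕ) :
    box (e + 2) a + (theta e p m)^[n] '' box (e + 2) b =
      asm e '' ((S2 (ent p n).1 (ent p n).2.1 (ent p n).2.2.1 (ent p n).2.2.2 a b ×ˢ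
        Fintype.piFinset (fun j => S1 (m j ^ n) a b) : Finset ((ℕ × ℕ) × (Fin e → ℕ))) :
          Set ((ℕ × ℕ) × (Fin e → ℕ))) := by
  ext s
  simp only [Set.mem_add, Set.mem_image, Finset.coe_product, Set.mem_prod, Finset.mem_coe,
    Prod.exists, mem_S2, Fintype.mem_piFinset, mem_S1]
  constructor
  · rintro ⟨u, hu, _, ⟨v, hv, rfl⟩, rfl⟩
    obtain ⟨h0, h1, h2⟩ := iterate_theta e p m n v
    refine ⟨_, _, fun j => u j.succ.succ + m j ^ n * v j.succ.succ,
      ⟨⟨u 0, u 1, v 0, v 1, hu 0, hu 1, hv 0, hv 1, rfl⟩,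
        fun j => ⟨u j.succ.succ, v j.succ.succ, hu _, hv _, rfl⟩⟩, ?_⟩
    apply ext_three
    · simp only [asm_zero, Finsupp.coe_add, Pi.add_apply, h0]
    · simp only [asm_one, Finsupp.coe_add, Pi.add_apply, h1]
    · intro j
      simp only [asm_succ, Finsupp.coe_add, Pi.add_apply, h2]
  · rintro ⟨z1, z2, w, ⟨⟨u1, u2, v1, v2, hu1, hu2, hv1, hv2, hz⟩, hw⟩, rfl⟩
    choose u v hu hv huv using hw
    simp only [Prod.mk.injEq] at hz
    refine ⟨asm e ((u1, u2), u), ?_, _, ⟨asm e ((v1, v2), v), ?_, rfl⟩, ?_⟩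
    · intro j
      refine Fin.cases ?_ (fun j => ?_) j
      · rw [asm_zero]; exact hu1
      · refine Fin.cases ?_ (fun j => ?_) j
        · exact (asm_one e ((u1, u2), u)).le.trans hu2
        · rw [asm_succ]; exact hu j
    · intro j
      refine Fin.cases ?_ (fun j => ?_) j
      · rw [asm_zero]; exact hv1
      · refine Fin.cases ?_ (fun j => ?_) j
        · exact (asm_one e ((v1, v2), v)).le.trans hv2
        · rw [asm_succ]; exact hv j
    · obtain ⟨h0, h1, h2⟩ := iterate_theta e p m n (asm e ((v1, v2), v))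
      apply ext_three
      · simp only [Finsupp.coe_add, Pi.add_apply, h0, asm_zero, asm_one, hz.1]
      · simp only [Finsupp.coe_add, Pi.add_apply, h1, asm_zero, asm_one, hz.2]
      · intro j
        simp only [Finsupp.coe_add, Pi.add_apply, h2, asm_succ, huv]

lemma ncard_sumset (e p : ℕ) (m : Fin e → ℕ) (n a b : ℕ) :
    (box (e + 2) a + (theta e p m)^[n] '' box (e + 2) b).ncard =
      (S2 (ent p n).1 (ent p n).2.1 (ent p n).2.2.1 (ent p n).2.2.2 a b).card *
        ∏ j, (S1 (m j ^ n) a b).card := by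
  rw [sumset_eq, Set.ncard_image_of_injective _ (asm_injective e), Set.ncard_coe_finset,
    Finset.card_product, Fintype.card_piFinset]

lemma tendsto_ncard (e p : ℕ) (m : Fin e → ℕ) (hm : ∀ j, 1 ≤ m j) (n a b : ℕ) (ha : 1 ≤ a) :
    Tendsto (fun t : ℕ => ((box (e + 2) (t * a) +
      (theta e p m)^[n] '' box (e + 2) (t * b)).ncard : ℝ) / (t : ℝ) ^ (e + 2)) atTop
    (𝓝 (((b : ℝ) ^ 2 * |((ent p n).1 : ℝ) * (ent p n).2.2.2 - (ent p n).2.1 * (ent p n).2.2.1| +
      (a : ℝ) * (b * ((ent p n).1 + (ent p n).2.1 + (ent p n).2.2.1 + (ent p n).2.2.2)) +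
      (a : ℝ) ^ 2) * ∏ j, ((a : ℝ) + (m j : ℝ) ^ n * b))) := by
  have h1 := tendsto_S2 (ent p n).1 (ent p n).2.1 (ent p n).2.2.1 (ent p n).2.2.2 a b ha
  have h2 : Tendsto (fun t : ℕ => ∏ j, (((S1 (m j ^ n) (t * a) (t * b)).card : ℝ) / (t : ℝ)))
      atTop (𝓝 (∏ j, ((a : ℝ) + (m j : ℝ) ^ n * b))) := by
    apply tendsto_finsetProd
    intro j _
    have := tendsto_S1 (m j ^ n) (Nat.one_le_pow _ _ (hm j)) a b ha
    push_cast at this
    exact this
  refine (h1.mul h2).congr ?_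
  intro t
  rw [ncard_sumset, Finset.prod_div_distrib, Finset.prod_const, Finset.card_univ, Fintype.card_fin,
    div_mul_div_comm, ← pow_add, add_comm 2 e]
  push_cast
  rfl

end Pool.Agent.Lib.Pdcd72d
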