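import Mathlib
import Pool.Agent.Lib.Pdcd72d.Prod

open Filter Topology Pointwise MeasureTheory

namespace Pool.Agent.Lib.Pdcd72d

/-- the determinant of the `n`-th power -/
lemma ent_det (p n : ℕ) :
    ((ent p n).1 : ℝ) * (ent p n).2.2.2 - (ent p n).2.1 * (ent p n).2.2.1 =
      (-((p : ℝ) + 2)) ^ n := by
  induction n with
  | zero => simp [ent]
  | succ n ih =>
    rw [pow_succ, ← ih]
    simp only [ent]
    push_cast
    ring

lemma ent_abs_det (p n : ℕ) :
    |((ent p n).1 : ℝ) * (ent p n).2.2.2 - (ent p n).2.1 * (ent p n).2.2.1| =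
      ((p : ℝ) + 2) ^ n := by
  rw [ent_det, abs_pow, abs_neg, abs_of_nonneg (by positivity)]

/-- the sum of the entries of the `n`-th power -/
noncomputable def esum (p n : ℕ) : ℝ :=
  ((ent p n).1 : ℝ) + (ent p n).2.1 + (ent p n).2.2.1 + (ent p n).2.2.2

/-- the spectral radius -/
noncomputable def rho (p : ℕ) : ℝ := ((p : ℝ) + Real.sqrt ((p : ℝ) ^ 2 + 4 * (p + 2))) / 2

lemma rho_sq (p : ℕ) : rho p ^ 2 = p * rho p + (p + 2) := by
  have h : Real.sqrt ((p : ℝ) ^ 2 + 4 * (p + 2)) ^ 2 = (p : ℝ) ^ 2 + 4 * (p + 2) :=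
    Real.sq_sqrt (by positivity)
  unfold rho
  nlinarith

lemma rho_pos (p : ℕ) : 0 < rho p := by
  unfold rho
  have : 0 < Real.sqrt ((p : ℝ) ^ 2 + 4 * (p + 2)) := Real.sqrt_pos.mpr (by positivity)
  have : (0:ℝ) ≤ p := Nat.cast_nonneg _
  linarith

lemma lt_rho (p : ℕ) : (p : ℝ) + 1 < rho p := by
  by_contra h
  push Not at h
  have h1 := rho_sq p
  have h2 := rho_pos p
  have h3 : (0:ℝ) ≤ p := Nat.cast_nonneg _
  nlinarith

lemma rho_lt (p : ℕ) : rho p < (p : ℝ) + 2 := by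
  by_contra h
  push Not at h
  have h1 := rho_sq p
  have h2 := rho_pos p
  have h3 : (0:ℝ) ≤ p := Nat.cast_nonneg _
  nlinarith

lemma ent_eig (p n : ℕ) :
    ((ent p n).1 : ℝ) * rho p + (ent p n).2.1 = rho p ^ (n + 1) ∧
    ((ent p n).2.2.1 : ℝ) * rho p + (ent p n).2.2.2 = rho p ^ n := by
  induction n with
  | zero => simp [ent]
  | succ n ih =>
    obtain ⟨h1, h2⟩ := ih
    constructor
    · have : ((ent p (n+1)).1 : ℝ) * rho p + (ent p (n+1)).2.1 =
          p * (((ent p n).1 : ℝ) * rho p + (ent p n).2.1) +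
          (p + 2) * (((ent p n).2.2.1 : ℝ) * rho p + (ent p n).2.2.2) := by
        simp only [ent]
        push_cast
        ring
      rw [this, h1, h2]
      have h3 := rho_sq p
      calc (p : ℝ) * rho p ^ (n + 1) + (p + 2) * rho p ^ n
          = rho p ^ n * (p * rho p + (p + 2)) := by ring
        _ = rho p ^ n * rho p ^ 2 := by rw [h3]
        _ = _ := by ring
    · simp only [ent]
      exact h1

lemma esum_le (p n : ℕ) : esum p n ≤ (rho p + 1) * rho p ^ n := by
  obtain ⟨h1, h2⟩ := ent_eig p n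
  have h3 : (1:ℝ) ≤ rho p := by
    have := lt_rho p
    have : (0:ℝ) ≤ p := Nat.cast_nonneg _
    linarith
  have a1 : (0:ℝ) ≤ (ent p n).1 := Nat.cast_nonneg _
  have a2 : (0:ℝ) ≤ (ent p n).2.2.1 := Nat.cast_nonneg _
  unfold esum
  have : (rho p + 1) * rho p ^ n = rho p ^ (n+1) + rho p ^ n := by ring
  rw [this, ← h1, ← h2]
  nlinarith

lemma le_esum (p n : ℕ) : rho p ^ n ≤ esum p n := by
  obtain ⟨h1, h2⟩ := ent_eig p n
  have h3 : (1:ℝ) ≤ rho p := by
    have := lt_rho p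
    have : (0:ℝ) ≤ p := Nat.cast_nonneg _
    linarith
  have a1 : (0:ℝ) ≤ (ent p n).1 := Nat.cast_nonneg _
  have a2 : (0:ℝ) ≤ (ent p n).2.1 := Nat.cast_nonneg _
  have a3 : (0:ℝ) ≤ (ent p n).2.2.1 := Nat.cast_nonneg _
  have a4 : (0:ℝ) ≤ (ent p n).2.2.2 := Nat.cast_nonneg _
  unfold esum
  have h4 : rho p * rho p ^ n ≤ rho p * ((ent p n).1 + (ent p n).2.1 + (ent p n).2.2.1 + (ent p n).2.2.2) := by
    have : rho p * rho p ^ n = rho p ^ (n+1) := by ring
    rw [this, ← h1]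
    nlinarith
  exact le_of_mul_le_mul_left h4 (rho_pos p)

/-- squeezing `n`-th roots -/
lemma tendsto_root (y : ℕ → ℝ) (c C G : ℝ) (hc : 0 < c) (hC : 0 < C) (hG : 0 < G)
    (h1 : ∀ n, c * G ^ n ≤ y n) (h2 : ∀ n, y n ≤ C * G ^ n) :
    Tendsto (fun n : ℕ => (y n) ^ (1 / (n : ℝ))) atTop (𝓝 G) := by
  have key : ∀ D : ℝ, 0 < D → Tendsto (fun n : ℕ => D ^ (1 / (n : ℝ)) * G) atTop (𝓝 G) := by
    intro D hD
    have h : Tendsto (fun n : ℕ => D ^ (1 / (n : ℝ))) atTop (𝓝 (D ^ (0:ℝ))) := by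
      have hcont : ContinuousAt (fun x : ℝ => D ^ x) 0 :=
        Real.continuousAt_const_rpow hD.ne'
      exact hcont.tendsto.comp tendsto_one_div_atTop_nhds_zero_nat
    rw [Real.rpow_zero] at h
    simpa using h.mul_const G
  have hroot : ∀ D : ℝ, 0 < D → ∀ n : ℕ, 1 ≤ n →
      (D * G ^ n) ^ (1 / (n : ℝ)) = D ^ (1 / (n : ℝ)) * G := by
    intro D hD n hn
    rw [Real.mul_rpow hD.le (by positivity), ← Real.rpow_natCast G n, ← Real.rpow_mul hG.le]
    have : (n : ℝ) * (1 / (n : ℝ)) = 1 := by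
      have : (n : ℝ) ≠ 0 := by positivity
      field_simp
    rw [this, Real.rpow_one]
  refine tendsto_of_tendsto_of_tendsto_of_le_of_le' (key c hc) (key C hC) ?_ ?_
  · filter_upwards [eventually_ge_atTop 1] with n hn
    rw [← hroot c hc n hn]
    exact Real.rpow_le_rpow (by positivity) (h1 n) (by positivity)
  · filter_upwards [eventually_ge_atTop 1] with n hn
    rw [← hroot C hC n hn]
    have : 0 ≤ y n := le_trans (by positivity) (h1 n)
    exact Real.rpow_le_rpow this (h2 n) (by positivity)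

/-- polynomials with nonnegative coefficients -/
lemma coeff_mul_ge (P Q : Polynomial ℝ) (hP : ∀ i, 0 ≤ P.coeff i) (hQ : ∀ i, 0 ≤ Q.coeff i)
    (i j : ℕ) : P.coeff i * Q.coeff j ≤ (P * Q).coeff (i + j) := by
  rw [Polynomial.coeff_mul]
  exact Finset.single_le_sum (f := fun x : ℕ × ℕ => P.coeff x.1 * Q.coeff x.2)
    (fun x _ => mul_nonneg (hP _) (hQ _)) (a := (i, j)) (by simp)

lemma coeff_mul_nonneg (P Q : Polynomial ℝ) (hP : ∀ i, 0 ≤ P.coeff i) (hQ : ∀ i, 0 ≤ Q.coeff i)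
    (i : ℕ) : 0 ≤ (P * Q).coeff i := by
  rw [Polynomial.coeff_mul]
  exact Finset.sum_nonneg (fun x _ => mul_nonneg (hP _) (hQ _))

lemma coeff_mul_pow_le_eval (P : Polynomial ℝ) (hP : ∀ i, 0 ≤ P.coeff i) (x : ℝ) (hx : 0 ≤ x)
    (i : ℕ) : P.coeff i * x ^ i ≤ P.eval x := by
  by_cases hi : i ≤ P.natDegree
  · rw [Polynomial.eval_eq_sum_range]
    exact Finset.single_le_sum (f := fun i => P.coeff i * x ^ i)
      (fun j _ => mul_nonneg (hP _) (by positivity)) (Finset.mem_range.mpr (by omega))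
  · push Not at hi
    rw [Polynomial.coeff_eq_zero_of_natDegree_lt hi, zero_mul, Polynomial.eval_eq_sum_range]
    exact Finset.sum_nonneg (fun j _ => mul_nonneg (hP _) (by positivity))

/-- the linear factor `1 + c X` -/
noncomputable def lin (c : ℝ) : Polynomial ℝ := 1 + Polynomial.C c * Polynomial.X

lemma lin_coeff_nonneg (c : ℝ) (hc : 0 ≤ c) (i : ℕ) : 0 ≤ (lin c).coeff i := by
  simp only [lin, Polynomial.coeff_add, Polynomial.coeff_one, Polynomial.coeff_C_mul,
    Polynomial.coeff_X]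
  split_ifs <;> simp [hc] <;> linarith

lemma lin_pow_coeff_nonneg (c : ℝ) (hc : 0 ≤ c) (r i : ℕ) : 0 ≤ ((lin c) ^ r).coeff i := by
  induction r generalizing i with
  | zero => simp only [pow_zero, Polynomial.coeff_one]; split_ifs <;> simp
  | succ r ih => rw [pow_succ]; exact coeff_mul_nonneg _ _ ih (lin_coeff_nonneg c hc) i

lemma lin_pow_coeff_zero (c : ℝ) (r : ℕ) : ((lin c) ^ r).coeff 0 = 1 := by
  rw [Polynomial.coeff_zero_eq_eval_zero]
  simp [lin]

lemma lin_pow_coeff_top (c : ℝ) (hc : 0 ≤ c) (r : ℕ) : c ^ r ≤ ((lin c) ^ r).coeff r := by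
  induction r with
  | zero => simp
  | succ r ih =>
    rw [pow_succ, pow_succ]
    have h1 : (lin c).coeff 1 = c := by
      simp [lin, Polynomial.coeff_one]
    have h := coeff_mul_ge (lin c ^ r) (lin c) (lin_pow_coeff_nonneg c hc r)
      (lin_coeff_nonneg c hc) r 1
    rw [h1] at h
    exact le_trans (mul_le_mul_of_nonneg_right ih hc) h

/-- the quadratic factor -/
noncomputable def quad (s D : ℝ) : Polynomial ℝ :=
  1 + Polynomial.C s * Polynomial.X + Polynomial.C D * Polynomial.X ^ 2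

lemma quad_coeff_nonneg (s D : ℝ) (hs : 0 ≤ s) (hD : 0 ≤ D) (i : ℕ) :
    0 ≤ (quad s D).coeff i := by
  simp only [quad, Polynomial.coeff_add, Polynomial.coeff_one, Polynomial.coeff_C_mul,
    Polynomial.coeff_X, Polynomial.coeff_X_pow]
  split_ifs <;> simp [hs, hD] <;> try positivity

lemma quad_coeff_one (s D : ℝ) : (quad s D).coeff 1 = s := by
  simp [quad, Polynomial.coeff_one, Polynomial.coeff_X_pow]

lemma quad_coeff_two (s D : ℝ) : (quad s D).coeff 2 = D := by
  simp [quad, Polynomial.coeff_one]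

/-- the generating polynomial of the degrees -/
noncomputable def pol (s D c : ℝ) (r w : ℕ) : Polynomial ℝ :=
  quad s D * (lin c ^ r * lin 1 ^ w)

lemma pol_coeff_nonneg (s D c : ℝ) (hs : 0 ≤ s) (hD : 0 ≤ D) (hc : 0 ≤ c) (r w i : ℕ) :
    0 ≤ (pol s D c r w).coeff i :=
  coeff_mul_nonneg _ _ (quad_coeff_nonneg s D hs hD)
    (coeff_mul_nonneg _ _ (lin_pow_coeff_nonneg c hc r) (lin_pow_coeff_nonneg 1 zero_le_one w)) i

lemma pol_coeff_ge (s D c : ℝ) (hs : 0 ≤ s) (hD : 0 ≤ D) (hc : 0 ≤ c) (r w : ℕ) :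
    s * c ^ r ≤ (pol s D c r w).coeff (r + 1) ∧ D * c ^ r ≤ (pol s D c r w).coeff (r + 2) := by
  have h1 : c ^ r ≤ (lin c ^ r * lin 1 ^ w).coeff r := by
    have := coeff_mul_ge (lin c ^ r) (lin 1 ^ w) (lin_pow_coeff_nonneg c hc r)
      (lin_pow_coeff_nonneg 1 zero_le_one w) r 0
    rw [lin_pow_coeff_zero, mul_one, add_zero] at this
    exact (lin_pow_coeff_top c hc r).trans this
  constructor
  · have := coeff_mul_ge (quad s D) (lin c ^ r * lin 1 ^ w) (quad_coeff_nonneg s D hs hD)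
      (coeff_mul_nonneg _ _ (lin_pow_coeff_nonneg c hc r) (lin_pow_coeff_nonneg 1 zero_le_one w)) 1 r
    rw [quad_coeff_one, add_comm 1 r] at this
    exact (mul_le_mul_of_nonneg_left h1 hs).trans this
  · have := coeff_mul_ge (quad s D) (lin c ^ r * lin 1 ^ w) (quad_coeff_nonneg s D hs hD)
      (coeff_mul_nonneg _ _ (lin_pow_coeff_nonneg c hc r) (lin_pow_coeff_nonneg 1 zero_le_one w)) 2 r
    rw [quad_coeff_two, add_comm 2 r] at this
    exact (mul_le_mul_of_nonneg_left h1 hD).trans this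

lemma pol_eval (s D c : ℝ) (r w : ℕ) (x : ℝ) :
    (pol s D c r w).eval x = (1 + s * x + D * x ^ 2) * ((1 + c * x) ^ r * (1 + x) ^ w) := by
  simp [pol, quad, lin]

lemma lin_natDegree_le (c : ℝ) : (lin c).natDegree ≤ 1 := by
  unfold lin
  refine (Polynomial.natDegree_add_le _ _).trans (max_le (by simp) ?_)
  exact (Polynomial.natDegree_C_mul_le _ _).trans (by simp)

lemma quad_natDegree_le (s D : ℝ) : (quad s D).natDegree ≤ 2 := by
  unfold quad
  refine (Polynomial.natDegree_add_le _ _).trans (max_le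
    ((Polynomial.natDegree_add_le _ _).trans (max_le (by simp) ?_)) ?_)
  · exact (Polynomial.natDegree_C_mul_le _ _).trans (by simp)
  · exact (Polynomial.natDegree_C_mul_le _ _).trans (by simp)

lemma pol_natDegree_le (s D c : ℝ) (r w : ℕ) : (pol s D c r w).natDegree ≤ 2 + (r + w) := by
  unfold pol
  refine (Polynomial.natDegree_mul_le).trans (add_le_add (quad_natDegree_le s D) ?_)
  refine (Polynomial.natDegree_mul_le).trans (add_le_add ?_ ?_)
  · exact (Polynomial.natDegree_pow_le).trans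
      ((Nat.mul_le_mul_left r (lin_natDegree_le c)).trans (by simp))
  · exact (Polynomial.natDegree_pow_le).trans
      ((Nat.mul_le_mul_left w (lin_natDegree_le 1)).trans (by simp))

/-- homogenised evaluation -/
lemma pol_homog (s D c : ℝ) (r w : ℕ) (a b : ℝ) (ha : 0 < a) :
    ∑ i ∈ Finset.range (r + w + 2 + 1), (pol s D c r w).coeff i * a ^ (r + w + 2 - i) * b ^ i =
      (b ^ 2 * D + a * (b * s) + a ^ 2) * ((a + c * b) ^ r * (a + b) ^ w) := by
  have h1 : (pol s D c r w).eval (b / a) =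
      ∑ i ∈ Finset.range (r + w + 2 + 1), (pol s D c r w).coeff i * (b / a) ^ i :=
    Polynomial.eval_eq_sum_range' (by have := pol_natDegree_le s D c r w; omega) _
  have h2 : ∑ i ∈ Finset.range (r + w + 2 + 1),
      (pol s D c r w).coeff i * a ^ (r + w + 2 - i) * b ^ i =
      a ^ (r + w + 2) * (pol s D c r w).eval (b / a) := by
    rw [h1, Finset.mul_sum]
    apply Finset.sum_congr rfl
    intro i hi
    have hi' : i ≤ r + w + 2 := by
      have := Finset.mem_range.mp hi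
      omega
    have h3 : a ^ (r + w + 2) = a ^ (r + w + 2 - i) * a ^ i := by
      rw [← pow_add]; congr 1; omega
    rw [h3, div_pow]
    field_simp
  rw [h2, pol_eval]
  have e1 : a + c * b = a * (1 + c * (b / a)) := by field_simp
  have e2 : a + b = a * (1 + b / a) := by field_simp
  have e3 : b ^ 2 * D + a * (b * s) + a ^ 2 = a ^ 2 * (1 + s * (b / a) + D * (b / a) ^ 2) := by
    field_simp
    ring
  rw [e1, e2, e3, mul_pow, mul_pow]
  ring

end Pool.Agent.Lib.Pdcd72d
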