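import Mathlib
import Pool.Agent.Lib.Pdcd72d.Growth

open Filter Topology Pointwise

namespace Pool.Agent.Lib.Pdcd72d

universe u

section Model

variable (k : Type u) [Field k] (d : ℕ)

lemma X_mem (j : Fin d) : algebraMap (MvPolynomial (Fin d) k) (RF k d) (MvPolynomial.X j) ∈
    msp k (box d 1) := by
  apply Submodule.subset_span
  refine ⟨Finsupp.single j 1, ?_, rfl⟩
  intro i
  rw [Finsupp.single_apply]
  split_ifs <;> omega

lemma model_fg : (msp k (box d 1)).FG := by
  unfold msp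
  exact Submodule.fg_span ((box_finite d 1).image _)

lemma model_one_mem : (1 : RF k d) ∈ msp k (box d 1) := by
  apply Submodule.subset_span
  exact ⟨0, fun i => by simp, mon_zero k⟩

lemma model_adjoin : IntermediateField.adjoin k
    ((msp k (box d 1) : Submodule k (RF k d)) : Set (RF k d)) = ⊤ := by
  rw [eq_top_iff]
  intro x _
  have hpol : ∀ p : MvPolynomial (Fin d) k, algebraMap (MvPolynomial (Fin d) k) (RF k d) p ∈
      IntermediateField.adjoin k ((msp k (box d 1) : Submodule k (RF k d)) : Set (RF k d)) := by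
    intro p
    induction p using MvPolynomial.induction_on with
    | C a =>
      have : algebraMap (MvPolynomial (Fin d) k) (RF k d) (MvPolynomial.C a) =
          algebraMap k (RF k d) a := rfl
      rw [this]
      exact IntermediateField.algebraMap_mem _ a
    | add p q hp hq => rw [map_add]; exact add_mem hp hq
    | mul_X p j hp =>
      rw [map_mul]
      exact mul_mem hp (IntermediateField.subset_adjoin k _ (X_mem k d j))
  obtain ⟨p, q, _, rfl⟩ := IsFractionRing.div_surjective (A := MvPolynomial (Fin d) k) x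
  exact div_mem (hpol p) (hpol q)

lemma model_trdeg : Algebra.trdeg k (RF k d) = d := by
  have h := trdeg_add_eq k (MvPolynomial (Fin d) k) (A := RF k d)
  have h2 : Algebra.trdeg (MvPolynomial (Fin d) k) (RF k d) = 0 :=
    trdeg_eq_zero_iff.2
      (IsLocalization.isAlgebraic (RF k d) (nonZeroDivisors (MvPolynomial (Fin d) k)))
  rw [h2, add_zero, MvPolynomial.trdeg_of_isDomain] at h
  rw [← h]
  simp

end Model

/-- exponents of the power maps on the extra factors -/
def ms (r w : ℕ) : Fin (r + w) → ℕ := fun j => if (j : ℕ) < r then 2 else 1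

lemma ms_pos (r w : ℕ) (j : Fin (r + w)) : 1 ≤ ms r w j := by
  unfold ms; split_ifs <;> omega

lemma prod_ms (r w : ℕ) (F : ℕ → ℝ) : ∏ j, F (ms r w j) = F 2 ^ r * F 1 ^ w := by
  rw [Fin.prod_univ_add]
  congr 1
  · rw [← Fin.prod_const]
    apply Finset.prod_congr rfl
    intro j _
    simp [ms]
  · rw [← Fin.prod_const]
    apply Finset.prod_congr rfl
    intro j _
    simp [ms]

/-- the degrees of the iterates -/
noncomputable def degs (p r w n i : ℕ) : ℝ :=
  (i.factorial * (r + w + 2 - i).factorial : ℝ) *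
    (pol (esum p n) (((p : ℝ) + 2) ^ n) (2 ^ n) r w).coeff i

lemma tendsto_forms (k : Type u) [Field k] (p r w n a b : ℕ) (ha : 1 ≤ a) :
    Tendsto (fun t : ℕ =>
      (Module.finrank k ↥((msp k (box (r + w + 2) 1)) ^ (t * a) *
        ((msp k (box (r + w + 2) 1)).map ((monHom k (theta (r + w) p (ms r w))
          (theta_injective _ _ _ (ms_pos r w))) ^ n).toLinearMap) ^ (t * b)) : ℝ) /
          (t : ℝ) ^ (r + w + 2)) atTop
      (𝓝 (∑ i ∈ Finset.range (r + w + 2 + 1),
        degs p r w n i * (a : ℝ) ^ (r + w + 2 - i) * (b : ℝ) ^ i /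
          ((r + w + 2 - i).factorial * i.factorial))) := by
  have h := tendsto_ncard (r + w) p (ms r w) (ms_pos r w) n a b ha
  have hpr : ∏ j, ((a : ℝ) + (ms r w j : ℝ) ^ n * b) =
      ((a : ℝ) + 2 ^ n * b) ^ r * ((a : ℝ) + b) ^ w := by
    have := prod_ms r w (fun m => (a : ℝ) + (m : ℝ) ^ n * b)
    simpa using this
  rw [hpr, ent_abs_det] at h
  have ha' : (0 : ℝ) < a := by exact_mod_cast ha
  have h3 := pol_homog (esum p n) (((p : ℝ) + 2) ^ n) (2 ^ n) r w (a : ℝ) (b : ℝ) ha'
  have h4 : (∑ i ∈ Finset.range (r + w + 2 + 1), degs p r w n i * (a : ℝ) ^ (r + w + 2 - i) *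
      (b : ℝ) ^ i / ((r + w + 2 - i).factorial * i.factorial)) =
      ((b : ℝ) ^ 2 * ((p : ℝ) + 2) ^ n + a * (b * ((ent p n).1 + (ent p n).2.1 +
        (ent p n).2.2.1 + (ent p n).2.2.2)) + (a : ℝ) ^ 2) *
        (((a : ℝ) + 2 ^ n * b) ^ r * ((a : ℝ) + b) ^ w) := by
    have h5 : ((ent p n).1 + (ent p n).2.1 + (ent p n).2.2.1 + (ent p n).2.2.2 : ℝ) =
        esum p n := rfl
    rw [h5, ← h3]
    apply Finset.sum_congr rfl
    intro i _
    unfold degs
    have f1 : ((r + w + 2 - i).factorial : ℝ) ≠ 0 := by positivity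
    have f2 : (i.factorial : ℝ) ≠ 0 := by positivity
    field_simp
  rw [h4]
  refine h.congr ?_
  intro t
  rw [finrank_forms]

/-- Growth of the degrees. -/
lemma growth (p r w : ℕ) (hp : 1 ≤ p) :
    Tendsto (fun n : ℕ => (degs p r w n (r + 1)) ^ (1 / (n : ℝ))) atTop (𝓝 (rho p * 2 ^ r)) ∧
    Tendsto (fun n : ℕ => (degs p r w n (r + 2)) ^ (1 / (n : ℝ))) atTop
      (𝓝 (((p : ℝ) + 2) * 2 ^ r)) := by
  have hp' : (1 : ℝ) ≤ p := by exact_mod_cast hp
  have r1 := lt_rho p
  have r2 := rho_lt p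
  have r0 := rho_pos p
  have hs0 : ∀ n, 0 ≤ esum p n := fun n => le_trans (by positivity) (le_esum p n)
  have hnn : ∀ n i, 0 ≤ (pol (esum p n) (((p : ℝ) + 2) ^ n) (2 ^ n) r w).coeff i := fun n i =>
    pol_coeff_nonneg _ _ _ (hs0 n) (by positivity) (by positivity) r w i
  constructor
  · set c : ℝ := ((r + 1).factorial * (r + w + 2 - (r + 1)).factorial : ℝ) with hc
    have hcpos : 0 < c := by positivity
    refine tendsto_root _ c (c * ((rho p + 3) * 2 ^ (r + w))) (rho p * 2 ^ r) hcpos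
      (by positivity) (by positivity) ?_ ?_
    · intro n
      have h1 := (pol_coeff_ge (esum p n) (((p : ℝ) + 2) ^ n) (2 ^ n) (hs0 n) (by positivity)
        (by positivity) r w).1
      have h2 : (rho p * 2 ^ r) ^ n ≤ esum p n * (2 ^ n) ^ r := by
        rw [mul_pow, ← pow_mul, ← pow_mul, mul_comm r n]
        exact mul_le_mul_of_nonneg_right (le_esum p n) (by positivity)
      exact mul_le_mul_of_nonneg_left (h2.trans h1) hcpos.le
    · intro n
      have h1 := coeff_mul_pow_le_eval (pol (esum p n) (((p : ℝ) + 2) ^ n) (2 ^ n) r w)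
        (hnn n) ((1 / 2 : ℝ) ^ n) (by positivity) (r + 1)
      rw [pol_eval] at h1
      have e1 : (2 : ℝ) ^ n * (1 / 2 : ℝ) ^ n = 1 := by
        rw [← mul_pow]; norm_num
      have e2 : (1 + (2 : ℝ) ^ n * (1 / 2 : ℝ) ^ n) ^ r = 2 ^ r := by
        rw [e1]; norm_num
      have e3 : (1 + (1 / 2 : ℝ) ^ n) ^ w ≤ 2 ^ w := by
        have : (1 / 2 : ℝ) ^ n ≤ 1 := pow_le_one₀ (by norm_num) (by norm_num)
        exact pow_le_pow_left₀ (by positivity) (by linarith) w
      have e4 : 1 + esum p n * (1 / 2 : ℝ) ^ n + ((p : ℝ) + 2) ^ n * ((1 / 2 : ℝ) ^ n) ^ 2 ≤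
          (rho p + 3) * (rho p / 2) ^ n := by
        have g1 : (1 : ℝ) ≤ (rho p / 2) ^ n := one_le_pow₀ (by linarith)
        have g2 : esum p n * (1 / 2 : ℝ) ^ n ≤ (rho p + 1) * (rho p / 2) ^ n := by
          have := mul_le_mul_of_nonneg_right (esum_le p n) (show (0:ℝ) ≤ (1 / 2 : ℝ) ^ n by positivity)
          refine this.trans (le_of_eq ?_)
          rw [div_eq_mul_one_div (rho p) 2, mul_pow]
          ring
        have g3 : ((p : ℝ) + 2) ^ n * ((1 / 2 : ℝ) ^ n) ^ 2 ≤ (rho p / 2) ^ n := by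
          have : ((p : ℝ) + 2) ^ n * ((1 / 2 : ℝ) ^ n) ^ 2 = (((p : ℝ) + 2) / 4) ^ n := by
            rw [← pow_mul, mul_comm n 2, pow_mul, ← mul_pow]
            congr 1
            norm_num
            ring
          rw [this]
          exact pow_le_pow_left₀ (by positivity) (by linarith) n
        linarith
      rw [e2] at h1
      have h2 : (pol (esum p n) (((p : ℝ) + 2) ^ n) (2 ^ n) r w).coeff (r + 1) *
          ((1 / 2 : ℝ) ^ n) ^ (r + 1) ≤
          ((rho p + 3) * (rho p / 2) ^ n) * (2 ^ r * 2 ^ w) := by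
        refine h1.trans ?_
        apply mul_le_mul e4 _ (by positivity) (by positivity)
        exact mul_le_mul_of_nonneg_left e3 (by positivity)
      have h3 : (pol (esum p n) (((p : ℝ) + 2) ^ n) (2 ^ n) r w).coeff (r + 1) ≤
          ((rho p + 3) * 2 ^ (r + w)) * (rho p * 2 ^ r) ^ n := by
        have h4 := mul_le_mul_of_nonneg_right h2 (show (0:ℝ) ≤ ((2 : ℝ) ^ n) ^ (r + 1) by positivity)
        have e5 : ((1 / 2 : ℝ) ^ n) ^ (r + 1) * ((2 : ℝ) ^ n) ^ (r + 1) = 1 := by
          rw [← mul_pow, mul_comm ((1 / 2 : ℝ) ^ n), e1, one_pow]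
        rw [mul_assoc, e5, mul_one] at h4
        refine h4.trans (le_of_eq ?_)
        have e6 : (rho p / 2) ^ n * ((2 : ℝ) ^ n) ^ (r + 1) = (rho p * 2 ^ r) ^ n := by
          rw [pow_succ, ← mul_assoc, mul_comm ((rho p / 2) ^ n), mul_assoc, ← mul_pow, ← pow_mul,
            mul_comm n r, pow_mul, ← mul_pow]
          congr 1
          ring
        calc (rho p + 3) * (rho p / 2) ^ n * (2 ^ r * 2 ^ w) * ((2 : ℝ) ^ n) ^ (r + 1)
            = (rho p + 3) * (2 ^ r * 2 ^ w) * ((rho p / 2) ^ n * ((2 : ℝ) ^ n) ^ (r + 1)) := by ring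
          _ = _ := by rw [e6, pow_add]
      unfold degs
      rw [mul_assoc c]
      exact mul_le_mul_of_nonneg_left h3 hcpos.le
  · set c : ℝ := ((r + 2).factorial * (r + w + 2 - (r + 2)).factorial : ℝ) with hc
    have hcpos : 0 < c := by positivity
    refine tendsto_root _ c (c * ((rho p + 3) * 2 ^ (r + w))) (((p : ℝ) + 2) * 2 ^ r) hcpos
      (by positivity) (by positivity) ?_ ?_
    · intro n
      have h1 := (pol_coeff_ge (esum p n) (((p : ℝ) + 2) ^ n) (2 ^ n) (hs0 n) (by positivity)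
        (by positivity) r w).2
      have h2 : (((p : ℝ) + 2) * 2 ^ r) ^ n ≤ ((p : ℝ) + 2) ^ n * (2 ^ n) ^ r := by
        rw [mul_pow, ← pow_mul, ← pow_mul, mul_comm r n]
      exact mul_le_mul_of_nonneg_left (h2.trans h1) hcpos.le
    · intro n
      have h1 := coeff_mul_pow_le_eval (pol (esum p n) (((p : ℝ) + 2) ^ n) (2 ^ n) r w)
        (hnn n) (1 : ℝ) zero_le_one (r + 2)
      rw [pol_eval, one_pow, mul_one, one_pow, mul_one, mul_one, mul_one] at h1
      have e4 : 1 + esum p n + ((p : ℝ) + 2) ^ n ≤ (rho p + 3) * ((p : ℝ) + 2) ^ n := by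
        have g1 : (1 : ℝ) ≤ ((p : ℝ) + 2) ^ n := one_le_pow₀ (by linarith)
        have g2 : esum p n ≤ (rho p + 1) * ((p : ℝ) + 2) ^ n := by
          refine (esum_le p n).trans ?_
          apply mul_le_mul_of_nonneg_left _ (by positivity)
          exact pow_le_pow_left₀ (by positivity) (by linarith) n
        linarith
      have e3 : (1 + (2 : ℝ) ^ n) ^ r ≤ 2 ^ r * (2 ^ r) ^ n := by
        have : (2 : ℝ) ^ r * (2 ^ r) ^ n = (2 * 2 ^ n) ^ r := by
          rw [mul_pow, ← pow_mul, ← pow_mul, mul_comm r n]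
        rw [this]
        have : (1 : ℝ) ≤ 2 ^ n := one_le_pow₀ (by norm_num)
        exact pow_le_pow_left₀ (by positivity) (by linarith) r
      have h3 : (pol (esum p n) (((p : ℝ) + 2) ^ n) (2 ^ n) r w).coeff (r + 2) ≤
          ((rho p + 3) * 2 ^ (r + w)) * (((p : ℝ) + 2) * 2 ^ r) ^ n := by
        refine h1.trans ?_
        have : ((rho p + 3) * 2 ^ (r + w)) * (((p : ℝ) + 2) * 2 ^ r) ^ n =
            ((rho p + 3) * ((p : ℝ) + 2) ^ n) * ((2 ^ r * (2 ^ r) ^ n) * 2 ^ w) := by
          rw [mul_pow, pow_add]; ring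
        rw [this]
        apply mul_le_mul e4 _ (by positivity) (by positivity)
        have e7 : (1 + 1 : ℝ) ^ w = 2 ^ w := by norm_num
        rw [e7]
        exact mul_le_mul_of_nonneg_right e3 (by positivity)
      unfold degs
      rw [mul_assoc c]
      exact mul_le_mul_of_nonneg_left h3 hcpos.le

end Pool.Agent.Lib.Pdcd72d
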